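import Pool.Agent.H495.Full

/-!
# The Adams property for `GL_n` ABV-packets does not persist in `α`

Negative answer to Q1 of `MP_fe6ac3_nt`: for `n = 16` and the Kashiwara-Saito L-parameter `φ = ksN`
there is `π ∈ Π^ABV_φ` with `θ_0(π) ∈ Π^ABV_{φ_0}` but `θ_{-1}(π) ∉ Π^ABV_{φ_1}`.

Dictionary (definitions in `Pool/Agent/H495/Defs.lean`, `KSdata.lean`, `Ix.lean`):

* `Vogan e` : the Vogan variety `V_λ` of the infinitesimal parameter `λ = ⊕_p |·|^{e p}`, acted on by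
  `HGroup e = H_λ` by conjugation; an L-parameter is a point `N` (up to `H_λ`), and
  `π ↔ φ_π ↔ M ∈ V_λ` is the local Langlands correspondence.
* `InABV e N M` : `π_M ∈ Π^ABV_{φ_N}`.  Through the Riemann-Hilbert correspondence `P(π_M)` is the
  simple `H_λ`-equivariant `D`-module on the affine space `V_λ` with support the closure of
  `H_λ · M`, and `Evs_{C_N} P(π_M) ≠ 0` means that its characteristic variety contains the conormal
  bundle of `C_N = H_λ · N`.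
* `liftE e α`, `liftN N α` : infinitesimal parameter and L-parameter of
  `φ_α = φ^∨ ⊕ ⨁_{i<α} |·|^{(α-1)/2-i} ⊗ S_1`; the L-parameter of `θ_{-α}(π_M)` is `liftN M α`.
* `ksE`, `ksN` : infinitesimal and L-parameter of `φ`.
-/

namespace Pool.Agent.Results.MP_fe6ac3_nt.AdamsPersistenceFails

open Pool.Agent.H495

/-- There are `n = 16`, `φ ∈ Φ(GL_n(F))`, `π ∈ Π^ABV_φ` and `α = 0` with
`θ_{-α}(π) ∈ Π^ABV_{φ_α}` but `θ_{-(α+1)}(π) ∉ Π^ABV_{φ_{α+1}}`. -/
theorem result : Fintype.card (Ix 2) = 16 ∧ ksN ∈ Vogan ksE ∧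
    ∃ M : Matrix (Ix 2) (Ix 2) ℂ, M ∈ Vogan ksE ∧ InABV ksE ksN M ∧
      InABV (liftE ksE 0) (liftN ksN 0) (liftN M 0) ∧
      ¬ InABV (liftE ksE (0 + 1)) (liftN ksN (0 + 1)) (liftN M (0 + 1)) :=
  ⟨rfl, ksN_vogan, full⟩

end Pool.Agent.Results.MP_fe6ac3_nt.AdamsPersistenceFails
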